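import Pool.Agent.Run7.h275.S.I4
import Pool.Agent.Run7.h300.SC.OIM

/-!
# Project RB (helper275), piece RNG: the image of `Spec A[1/f]`
-/

set_option autoImplicit false

namespace Pool.Agent.Run7.h646.SC

open AlgebraicGeometry CategoryTheory Pool.Agent.W418.LU2 Pool.Agent.Run7.h275.RB
  Pool.Agent.Run7.h275.SC

theorem t_RNG : S_RNG := by
  intro F _ X A B₀ h j u hj hu huj f hf hB z
  have hinv : (f : F)⁻¹ ∈ B₀ := by
    rw [hB]
    exact Subring.subset_closure (Or.inr rfl)
  have hle : B₀ ≤ Subring.closure ((A : Set F) ∪ {(f : F)⁻¹}) := hB.le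
  constructor
  · rintro ⟨y, hy⟩ hz
    rw [huj, Scheme.Hom.comp_apply] at hy
    have h1 : inc h y = z := j.isOpenEmbedding.injective hy
    have h2 : f ∈ (show PrimeSpectrum A from inc h y).asIdeal := by rw [h1]; exact hz
    have h3 : Subring.inclusion h f ∈ (show PrimeSpectrum B₀ from y).asIdeal := h2
    have h4 : IsUnit (Subring.inclusion h f) := by
      refine IsUnit.of_mul_eq_one (⟨(f : F)⁻¹, hinv⟩ : B₀) ?_
      apply Subtype.ext
      exact mul_inv_cancel₀ hf
    exact (show PrimeSpectrum B₀ from y).2.ne_top (Ideal.eq_top_of_isUnit_mem _ h3 h4)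
  · intro hz
    obtain ⟨y, hy⟩ := Pool.Agent.Run7.h300.SC.inc_range h f.2 hf hinv hle
      (show PrimeSpectrum A from z) hz
    refine ⟨y, ?_⟩
    rw [huj, Scheme.Hom.comp_apply]
    exact congrArg j hy

end Pool.Agent.Run7.h646.SC
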